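import Pool.Agent.H230R4.BSD.Fin

/-!
# The asymptotic formula of Birch and Swinnerton-Dyer along sequences

Let `C : y² = x³ + a x + b` be an elliptic curve over `ℚ`, `EP(x)` the product of `#C(𝔽_p) / p`
over the good primes `p ≤ x`, `F` the entire continuation of the (incomplete) `L`-series,
`m = ord_{s=1} F` and `l = lim F(s) / (s - 1) ^ m` the leading coefficient.

1. `limsup EP(x) / (log x) ^ m ≥ e ^ (m γ) / (2 |l|)`, without any assumption.

Assume now that `F` has no real zero `> 1`. Then: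

2. `EP(x_n) ~ C (log x_n) ^ m` for some sequence `x_n → ∞` and some constant `C` between
   `e ^ (m γ) / (2 |l|)` and `2 e ^ (m γ) / |l|`;

3. if `∑_p (a_p² / p - 1) p ^ (-1-w)` has a limit as `w → 0+` (for all elliptic curves this is a
   known theorem on the symmetric square `L`-function), then this holds with the constant
   `√2 e ^ (m γ) / |l|` of Goldfeld;

4. if `F` has some zero with real part `> 1`, then for every real `κ` and every `C > 0` there is a
   sequence `x_n → ∞` with `EP(x_n) ~ C (log x_n) ^ κ`.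

So the products have a limit point predicted by Goldfeld's formula, and if for one pair `κ`, `C > 0`
the number `C` is no limit point of `EP(x) / (log x) ^ κ`, then the Riemann hypothesis holds for
`L(C, s)`.

The files `Pool/Agent/H438R3/BSD` of helper438 are used (relation between `EP` and `F`, Landau's
theorem, and the case `κ ≠ m`).
-/

set_option autoImplicit false

open Filter Topology

namespace Pool.Agent.Results.MP_ad1693_nt.AlongSequence

open Pool.Agent.H438R3.BSD Pool.Agent.H230R4.BSD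

/-- Euler's constant -/
noncomputable abbrev γ : ℝ := Real.eulerMascheroniConstant

open Classical in
/-- the sum of `(a_p² / p - 1) p ^ (-1-w)` over the good primes, `a_p = p - N_p` where `N_p` is the
number of affine points -/
noncomputable def symSq (a b : ℤ) (w : ℝ) : ℝ :=
  ∑' p : ℕ, if Good a b p then (((p : ℝ) - Np a b p) ^ 2 / p - 1) * (p : ℝ) ^ (-(1 + w)) else 0

/-- `EP(x_n) ~ C (log x_n) ^ κ` for some sequence `x_n → ∞` -/
def LimitPoint (a b : ℤ) (κ C : ℝ) : Prop :=
  ∃ x : ℕ → ℕ, StrictMono x ∧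
    Tendsto (fun n => EP a b (x n) / Real.log (x n) ^ κ) atTop (𝓝 C)

open Classical in
lemma good_cofinite (a b : ℤ) (hab : 4 * a ^ 3 + 27 * b ^ 2 ≠ 0) :
    {p : ℕ | p.Prime ∧ ¬ Good a b p}.Finite := by
  have h0 : (2 * (-4 * a ^ 3 - 27 * b ^ 2) : ℤ) ≠ 0 := by
    intro h
    apply hab
    linarith
  refine ((2 * (-4 * a ^ 3 - 27 * b ^ 2) : ℤ).natAbs.divisors.finite_toSet).subset ?_
  intro p hp
  obtain ⟨h1, h2⟩ := hp
  have h3 : (p : ℤ) ∣ 2 * (-4 * a ^ 3 - 27 * b ^ 2) := by
    by_contra h4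
    exact h2 ⟨h1, h4⟩
  simp only [Finset.mem_coe, Nat.mem_divisors]
  exact ⟨Int.natCast_dvd.1 h3, Int.natAbs_ne_zero.2 h0⟩

lemma limitPoint_of {a b : ℤ} {κ c : ℝ} (h : ∃ φ : ℕ → ℕ, StrictMono φ ∧
    Tendsto (fun n => uu a b κ (φ n)) atTop (𝓝 c)) : LimitPoint a b κ (Real.exp c) := by
  obtain ⟨φ, hφ, h1⟩ := h
  refine ⟨φ, hφ, ?_⟩
  have h2 := (Real.continuous_exp.tendsto c).comp h1
  refine h2.congr' ?_
  filter_upwards [hφ.tendsto_atTop.eventually_ge_atTop 3] with n hn
  exact (exp_uu κ hn).symm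

open Classical in
theorem result (a b : ℤ) (hab : 4 * a ^ 3 + 27 * b ^ 2 ≠ 0) (F : ℂ → ℂ) (hF : IsL a b F) :
    ∃ (m : ℕ) (l : ℂ), analyticOrderAt F 1 = m ∧ l ≠ 0 ∧
      Tendsto (fun s => F s / (s - 1) ^ m) (𝓝[≠] 1) (𝓝 l) ∧
      (∀ C < Real.exp (m * γ) / (2 * ‖l‖), ∃ᶠ x : ℕ in atTop, C < EP a b x / Real.log x ^ m) ∧
      ((∀ σ : ℝ, 1 < σ → F σ ≠ 0) →
        (∃ C ∈ Set.Icc (Real.exp (m * γ) / (2 * ‖l‖)) (2 * Real.exp (m * γ) / ‖l‖),
          LimitPoint a b m C) ∧
        ((∃ Φ : ℝ, Tendsto (symSq a b) (𝓝[>] 0) (𝓝 Φ)) →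
          LimitPoint a b m (√2 * Real.exp (m * γ) / ‖l‖)) ∧
        ((∃ ρ : ℂ, 1 < ρ.re ∧ F ρ = 0) → ∀ κ C : ℝ, 0 < C → LimitPoint a b κ C)) := by
  obtain ⟨m, hm⟩ := order_finite hF
  obtain ⟨l, hl, hlim⟩ := lead hF.1 m hm
  have hg : ∀ p, Good a b p → p.Prime := fun p hp => hp.1
  have ha : ∀ p, Good a b p → ‖al a b p‖ = (p : ℝ) ^ (1 / 2 : ℝ) := fun p hp => al_norm hp
  have hl0 : 0 < ‖l‖ := norm_pos_iff.2 hl
  set L : ℝ := m * γ - Real.log ‖l‖ with hL
  have hexp : ∀ D : ℝ, Real.exp (L + D) = Real.exp (m * γ) / ‖l‖ * Real.exp D := by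
    intro D
    rw [hL, Real.exp_add, Real.exp_sub, Real.exp_log hl0]
  -- upper values
  have up : ∀ D : ℝ, (∀ η : ℝ, 0 < η → ∀ᶠ w : ℝ in 𝓝[>] 0,
      D - η ≤ (∑' p, dd (Good a b) (al a b) p (1 + w)).re) →
      ∀ c < L + D, ∃ᶠ n : ℕ in atTop, c < uu a b m n := by
    intro D hD c hc
    by_contra hcon
    rw [not_frequently] at hcon
    have h1 : ∀ᶠ n : ℕ in atTop, (1 : ℝ) * uu a b m n ≤ c := by
      filter_upwards [hcon] with n hn
      rw [one_mul]; exact not_lt.1 hn
    have h2 := crit hF 1 (Or.inl rfl) D (fun η hη => by simpa using hD η hη) c m h1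
      (by norm_num) l hl hlim
    rw [one_mul] at h2
    linarith
  -- lower values
  have low : (∀ σ : ℝ, 1 < σ → F σ ≠ 0) → ∀ D : ℝ, (∀ η : ℝ, 0 < η → ∀ᶠ w : ℝ in 𝓝[>] 0,
      (∑' p, dd (Good a b) (al a b) p (1 + w)).re ≤ D + η) →
      ∀ c, L + D < c → ∃ᶠ n : ℕ in atTop, uu a b m n < c := by
    intro hreal D hD c hc
    by_contra hcon
    rw [not_frequently] at hcon
    have h1 : ∀ᶠ n : ℕ in atTop, (-1 : ℝ) * uu a b m n ≤ -c := by
      filter_upwards [hcon] with n hn
      have := not_lt.1 hn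
      linarith
    have h2 := crit hF (-1) (Or.inr rfl) D (fun η hη => by
      filter_upwards [hD η hη] with w hw
      linarith) (-c) m h1 (fun _ => hreal) l hl hlim
    linarith
  have hlog2 : ∀ η : ℝ, 0 < η → ∀ᶠ w : ℝ in 𝓝[>] 0,
      |(∑' p, dd (Good a b) (al a b) p (1 + w)).re| ≤ Real.log 2 + η := fun η hη => DD_abs_le hg ha η hη
  have up2 := up (-Real.log 2) (fun η hη => by
    filter_upwards [hlog2 η hη] with w hw
    linarith [(abs_le.1 hw).1])
  have e1 : Real.exp (L + -Real.log 2) = Real.exp (m * γ) / (2 * ‖l‖) := by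
    rw [hexp, Real.exp_neg, Real.exp_log (by norm_num)]
    field_simp
  have e2 : Real.exp (L + Real.log 2) = 2 * Real.exp (m * γ) / ‖l‖ := by
    rw [hexp, Real.exp_log (by norm_num)]
    ring
  have e3 : Real.exp (L + Real.log 2 / 2) = √2 * Real.exp (m * γ) / ‖l‖ := by
    rw [hexp]
    have : Real.exp (Real.log 2 / 2) = √2 := by
      rw [Real.sqrt_eq_rpow, Real.rpow_def_of_pos (by norm_num)]
      congr 1
      ring
    rw [this]
    ring
  refine ⟨m, l, hm, hl, hlim, ?_, fun hreal => ⟨?_, ?_, ?_⟩⟩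
  · intro C hC
    rcases le_or_gt C 0 with h0 | h0
    · refine Eventually.frequently ?_
      filter_upwards [eventually_ge_atTop 3] with n hn
      have hl1 : 0 < Real.log n := Real.log_pos (by exact_mod_cast (by omega : 1 < n))
      have := EP_pos a b n
      have : 0 < EP a b n / Real.log n ^ m := by positivity
      linarith
    · rw [← e1] at hC
      have h1 := up2 (Real.log C) ((Real.log_lt_iff_lt_exp h0).2 hC)
      refine (h1.and_eventually (eventually_ge_atTop 3)).mono fun n hn => ?_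
      have h2 := exp_uu (a := a) (b := b) m hn.2
      rw [Real.rpow_natCast] at h2
      rw [h2]
      exact (Real.log_lt_iff_lt_exp h0).1 hn.1
  · have low2 := low hreal (Real.log 2) (fun η hη => by
      filter_upwards [hlog2 η hη] with w hw
      linarith [(abs_le.1 hw).2])
    have hpos : 0 < Real.log 2 := Real.log_pos (by norm_num)
    obtain ⟨c, hc, hφ⟩ := cross (uu_step a b m) (by linarith) up2 low2
    refine ⟨Real.exp c, ⟨?_, ?_⟩, limitPoint_of hφ⟩
    · rw [← e1]; exact Real.exp_le_exp.2 hc.1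
    · rw [← e2]; exact Real.exp_le_exp.2 hc.2
  · rintro ⟨Φ, hΦ⟩
    have hΦ2 : Tendsto (fun w : ℝ => ∑' p : ℕ, if Good a b p then
        ((2 * (al a b p).re) ^ 2 / p - 1) * (p : ℝ) ^ (-(1 + w)) else 0) (𝓝[>] 0) (𝓝 Φ) := by
      refine hΦ.congr fun w => ?_
      unfold symSq
      refine tsum_congr fun p => ?_
      have : 2 * (al a b p).re = (p : ℝ) - Np a b p := by
        unfold al
        simp only
        ring
      rw [this]
    have hDD := DD_limit hg ha (good_cofinite a b hab) Φ hΦ2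
    have up3 := up (Real.log 2 / 2) (fun η hη => by
      filter_upwards [hDD.eventually (eventually_gt_nhds (by linarith : Real.log 2 / 2 - η < Real.log 2 / 2))]
        with w hw
      exact hw.le)
    have low3 := low hreal (Real.log 2 / 2) (fun η hη => by
      filter_upwards [hDD.eventually (eventually_lt_nhds (by linarith : Real.log 2 / 2 < Real.log 2 / 2 + η))]
        with w hw
      exact hw.le)
    obtain ⟨c, hc, hφ⟩ := cross (uu_step a b m) le_rfl up3 low3
    have hc2 : c = L + Real.log 2 / 2 := le_antisymm hc.2 hc.1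
    rw [← e3, ← hc2]
    exact limitPoint_of hφ
  · intro hρ κ C hC
    obtain ⟨m', _, h1, h2⟩ := main hF
    have A1 := fun c : ℝ => (h1 κ (Or.inr hρ) (Real.exp c)).2
    have A2 := fun c : ℝ => (h2 hreal κ (Or.inr hρ) (Real.exp c) (Real.exp_pos c)).2
    have B1 : ∀ c < Real.log C, ∃ᶠ n : ℕ in atTop, c < uu a b κ n := by
      intro c _
      refine ((A1 c).and_eventually (eventually_ge_atTop 3)).mono fun n hn => ?_
      have hl1 : 0 < Real.log n := Real.log_pos (by exact_mod_cast (by omega : 1 < n))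
      have h3 := exp_uu (a := a) (b := b) κ hn.2
      have h4 : Real.exp c < Real.exp (uu a b κ n) := by
        rw [← h3, lt_div_iff₀ (Real.rpow_pos_of_pos hl1 κ)]
        exact hn.1
      exact Real.exp_lt_exp.1 h4
    have B2 : ∀ c, Real.log C < c → ∃ᶠ n : ℕ in atTop, uu a b κ n < c := by
      intro c _
      refine ((A2 c).and_eventually (eventually_ge_atTop 3)).mono fun n hn => ?_
      have hl1 : 0 < Real.log n := Real.log_pos (by exact_mod_cast (by omega : 1 < n))
      have h3 := exp_uu (a := a) (b := b) κ hn.2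
      have h4 : Real.exp (uu a b κ n) < Real.exp c := by
        rw [← h3, div_lt_iff₀ (Real.rpow_pos_of_pos hl1 κ)]
        exact hn.1
      exact Real.exp_lt_exp.1 h4
    obtain ⟨c, hc, hφ⟩ := cross (uu_step a b κ) le_rfl B1 B2
    have hc2 : c = Real.log C := le_antisymm hc.2 hc.1
    rw [← Real.exp_log hC, ← hc2]
    exact limitPoint_of hφ

end Pool.Agent.Results.MP_ad1693_nt.AlongSequence
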